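import Mathlib

/-!
# Hodge-Tate variations and CM points: definitions

All objects live on a base variety `S` given as an etale hypersurface
`S = {(x, y) in C^n x C : delta(x) <> 0, P(x, y) = 0}`, `P` monic in `y` and irreducible, with `n`
parameters `x`, over which `S` is finite etale. Every smooth irreducible complex variety has a dense
Zariski open subset of this form.
-/

set_option autoImplicit false

namespace MP_cb3775_ag

open Filter Topology

/-- `e z = exp (2 pi i z)`. -/
noncomputable def e (z : ℂ) : ℂ := Complex.exp (2 * Real.pi * Complex.I * z)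

/-- Points `(x, y)` of the ambient space `C^n x C`. -/
abbrev Pt (n : ℕ) : Type := (Fin n → ℂ) × ℂ

/-- The polynomials in `x_1, .., x_n, y`, written as polynomials in `y` over the polynomials in `x`. -/
abbrev Poly (n : ℕ) : Type := Polynomial (MvPolynomial (Fin n) ℂ)

/-- The value of a polynomial in `x, y` at a point. -/
noncomputable def evalAt {n : ℕ} (s : Pt n) : Poly n →+* ℂ :=
  Polynomial.eval₂RingHom (MvPolynomial.eval s.1) s.2

/-- The data of a base variety: `P` monic in `y`, irreducible, and without multiple roots in `y`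
above the points `x` with `delta x <> 0`. -/
structure Base (n : ℕ) where
  P : Poly n
  δ : MvPolynomial (Fin n) ℂ
  monic : P.Monic
  irreducible : Irreducible P
  ne_zero : δ ≠ 0
  separable : ∀ x : Fin n → ℂ, MvPolynomial.eval x δ ≠ 0 →
    (P.map (MvPolynomial.eval x)).Separable

variable {n N : ℕ}

namespace Base

/-- The points of the variety `S`. -/
def pts (B : Base n) : Set (Pt n) :=
  {s | MvPolynomial.eval s.1 B.δ ≠ 0 ∧ evalAt s B.P = 0}

/-- A function (defined on the ambient space, only its values on `S` matter) is holomorphic at the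
point `s` of `S`: near `s` it is the restriction to `S` of a function analytic at `s`. -/
def HolAt (B : Base n) {E : Type} [NormedAddCommGroup E] [NormedSpace ℂ E] (f : Pt n → E)
    (s : Pt n) : Prop :=
  ∃ g : Pt n → E, AnalyticAt ℂ g s ∧ ∀ᶠ t in 𝓝[B.pts] s, f t = g t

/-- A function on `S` is rational: it is a quotient `α / β` of two polynomials, `β` not identically
zero on `S` (in the form `β f = α` on `S`). -/
def IsRational (B : Base n) (f : Pt n → ℂ) : Prop :=
  ∃ α β : Poly n, (∃ s ∈ B.pts, evalAt s β ≠ 0) ∧ ∀ s ∈ B.pts, evalAt s β * f s = evalAt s α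

/-- `Z` is Zariski dense in `S`. -/
def ZDense (B : Base n) (Z : Set (Pt n)) : Prop :=
  ∀ f : Poly n, (∀ s ∈ Z, evalAt s f = 0) → ∀ s ∈ B.pts, evalAt s f = 0

/-- The functions `y_1, .., y_r` on `S` are algebraically independent over `C`. -/
def AlgIndep (B : Base n) {r : ℕ} (y : Fin r → Pt n → ℂ) : Prop :=
  ∀ f : MvPolynomial (Fin r) ℂ, (∀ s ∈ B.pts, MvPolynomial.eval (fun j => y j s) f = 0) → f = 0

end Base

/-- `Wlt p k`: the span of the basis vectors `e_a` with `p a < k`. -/
def Wlt (p : Fin N → ℤ) (k : ℤ) : Submodule ℂ (Fin N → ℂ) where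
  carrier := {v | ∀ a, k ≤ p a → v a = 0}
  add_mem' := fun {v w} hv hw a ha => by simp [hv a ha, hw a ha]
  zero_mem' := fun _ _ => rfl
  smul_mem' := fun c v hv a ha => by simp [hv a ha]

/-- A matrix is unipotent with respect to the weights: `A e_b = e_b +` a combination of the `e_a`
with `p a < p b`. -/
def IsUnip {R : Type} [Zero R] [One R] (p : Fin N → ℤ) (A : Matrix (Fin N) (Fin N) R) : Prop :=
  ∀ a b, p b ≤ p a → A a b = if a = b then 1 else 0

/-- The image of a subspace of `C^N` under a matrix. -/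
noncomputable def act (A : Matrix (Fin N) (Fin N) ℂ) (F : Submodule ℂ (Fin N → ℂ)) :
    Submodule ℂ (Fin N → ℂ) := F.map (Matrix.toLin' A)

/-- An integral matrix as a complex matrix. -/
def zc (A : Matrix (Fin N) (Fin N) ℤ) : Matrix (Fin N) (Fin N) ℂ := A.map (fun m => (m : ℂ))

/-- A rational matrix as a complex matrix. -/
def qc (A : Matrix (Fin N) (Fin N) ℚ) : Matrix (Fin N) (Fin N) ℂ := A.map (fun m => (m : ℂ))

/-- A variation of mixed Hodge structure on `S` with constant graded pieces of Tate type. The local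
system is given by an open cover `U i`, local frames of `Z^N` on the `U i` adapted to the weight
filtration (`W_(2k) = W_(2k+1)` is spanned by the `e_a` with `p a <= k`) and locally constant
integral transition matrices `g i j` which respect the weights and are the identity on the graded
pieces. `F i k s` is the step `F^k` of the Hodge filtration at `s` in the frame on `U i`. -/
structure Variation (B : Base n) (N : ℕ) where
  p : Fin N → ℤ
  ι : Type
  U : ι → Set (Pt n)
  isOpen : ∀ i, IsOpen (U i)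
  cover : B.pts ⊆ ⋃ i, U i
  g : ι → ι → Pt n → Matrix (Fin N) (Fin N) ℤ
  g_loc : ∀ i j, ∀ s ∈ U i ∩ U j ∩ B.pts, ∀ᶠ t in 𝓝[B.pts] s, g i j t = g i j s
  g_unip : ∀ i j, ∀ s ∈ U i ∩ U j ∩ B.pts, IsUnip p (g i j s)
  g_mul : ∀ i j k, ∀ s ∈ U i ∩ U j ∩ U k ∩ B.pts, g i j s * g j k s = g i k s
  F : ι → ℤ → Pt n → Submodule ℂ (Fin N → ℂ)
  /-- the Hodge filtration is decreasing -/
  F_anti : ∀ i, ∀ s ∈ U i ∩ B.pts, Antitone fun k => F i k s
  /-- the fibre is a mixed Hodge structure whose graded piece of weight `2k` has type `(k,k)` -/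
  F_compl : ∀ i k, ∀ s ∈ U i ∩ B.pts, IsCompl (F i k s) (Wlt p k)
  /-- the filtrations in the different frames agree -/
  F_glue : ∀ i j k, ∀ s ∈ U i ∩ U j ∩ B.pts, F i k s = act (zc (g i j s)) (F j k s)
  /-- the Hodge filtration is holomorphic: it has local holomorphic frames -/
  F_hol : ∀ i k, ∀ s ∈ U i ∩ B.pts, ∃ (m : ℕ) (v : Fin m → Pt n → (Fin N → ℂ)),
    (∀ j, B.HolAt (v j) s) ∧ ∀ᶠ t in 𝓝[B.pts] s, F i k t = Submodule.span ℂ (Set.range fun j => v j t)
  /-- Griffiths transversality: the derivative of a section of `F^k` along any curve is in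
  `F^(k-1)` -/
  F_trans : ∀ i k, ∀ (γ : ℂ → Pt n) (v : ℂ → (Fin N → ℂ)), AnalyticAt ℂ γ 0 → γ 0 ∈ U i →
    (∀ᶠ t in 𝓝 (0 : ℂ), γ t ∈ B.pts) → AnalyticAt ℂ v 0 →
    (∀ᶠ t in 𝓝 (0 : ℂ), v t ∈ F i k (γ t)) → deriv v 0 ∈ F i (k - 1) (γ 0)

namespace Variation

variable {B : Base n}

/-- Admissibility along the arc `φ` (a map from a punctured disc to `S`): let `Ft` be a lift of the
Hodge filtration to a half plane `Im z > R` over the punctured disc `t = e z` (in flat frames), with
local monodromy `exp Λ`, so `Ft (z + 1) = exp Λ · Ft z`. Then `exp (-z Λ) · Ft z`, as a function `Ψ`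
of `t`, extends to a holomorphic filtration at `t = 0`, which is still the Hodge filtration of a
mixed Hodge structure with the same Hodge types (the relative weight filtration of `Λ` is `W`). -/
def AdmissibleAlong (V : Variation B N) (φ : ℂ → Pt n) : Prop :=
  ∃ (R : ℝ) (Λ : Matrix (Fin N) (Fin N) ℂ) (Ft Ψ : ℤ → ℂ → Submodule ℂ (Fin N → ℂ)),
    (∀ z : ℂ, R < z.im → φ (e z) ∈ B.pts) ∧
    (∀ a b, V.p b ≤ V.p a → Λ a b = 0) ∧
    (∃ T : Matrix (Fin N) (Fin N) ℤ, NormedSpace.exp Λ = zc T) ∧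
    (∀ z : ℂ, R < z.im → ∀ i, φ (e z) ∈ V.U i → ∃ γ : Matrix (Fin N) (Fin N) ℤ,
      IsUnip V.p γ ∧ ∀ᶠ w in 𝓝 z, ∀ k, Ft k w = act (zc γ) (V.F i k (φ (e w)))) ∧
    (∀ z : ℂ, R < z.im → ∀ k, Ft k (z + 1) = act (NormedSpace.exp Λ) (Ft k z)) ∧
    (∀ z : ℂ, R < z.im → ∀ k, Ψ k (e z) = act (NormedSpace.exp (-z • Λ)) (Ft k z)) ∧
    (∀ k, ∃ (m : ℕ) (v : Fin m → ℂ → (Fin N → ℂ)), (∀ j, AnalyticAt ℂ (v j) 0) ∧
      ∀ᶠ t in 𝓝 (0 : ℂ), Ψ k t = Submodule.span ℂ (Set.range fun j => v j t)) ∧
    (Antitone fun k => Ψ k 0) ∧ (∀ k, IsCompl (Ψ k 0) (Wlt V.p k))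

/-- Admissible: admissible along every arc in `S` which is meromorphic at the centre of the disc (the
curve test of Kashiwara). -/
def Admissible (V : Variation B N) : Prop :=
  ∀ φ : ℂ → Pt n, MeromorphicAt φ 0 → (∀ᶠ t in 𝓝[≠] (0 : ℂ), φ t ∈ B.pts) → V.AdmissibleAlong φ

/-- `A` is the value at `t` (at any `(z, w)` with `z w = t`) of the representation of the Deligne
torus on the fibre at `s`, in the frame on `U i`: it acts on
`I^(k,k) = F^k ∩ W_(2k)` as multiplication by `t^(-k)`. -/
def IsHodgeElt (V : Variation B N) (i : V.ι) (s : Pt n) (t : ℂ)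
    (A : Matrix (Fin N) (Fin N) ℂ) : Prop :=
  ∀ k : ℤ, ∀ v ∈ V.F i k s ⊓ Wlt V.p (k + 1), A.mulVec v = (t ^ (-k)) • v

end Variation

/-- The complex points of an algebraic subgroup of `GL_N` defined over `Q` (equations: rational
polynomials in the entries of `A` and of its inverse). -/
def IsQGroup (G : Set (Matrix (Fin N) (Fin N) ℂ)) : Prop :=
  (∃ T : Set (MvPolynomial ((Fin N × Fin N) ⊕ (Fin N × Fin N)) ℚ),
    G = {A | IsUnit A.det ∧ ∀ f ∈ T,
      MvPolynomial.aeval (Sum.elim (fun c => A c.1 c.2) fun c => A⁻¹ c.1 c.2) f = 0}) ∧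
  1 ∈ G ∧ (∀ A ∈ G, ∀ A' ∈ G, A * A' ∈ G) ∧ ∀ A ∈ G, A⁻¹ ∈ G

namespace Variation

variable {B : Base n}

/-- The (complex points of the) Mumford-Tate group of the fibre at `s`, in the frame on `U i`: the
smallest algebraic group over `Q` which contains the image of the Deligne torus. -/
def MT (V : Variation B N) (i : V.ι) (s : Pt n) : Set (Matrix (Fin N) (Fin N) ℂ) :=
  {A | ∀ G, IsQGroup G → (∀ t : ℂ, t ≠ 0 → ∀ A', V.IsHodgeElt i s t A' → A' ∈ G) → A ∈ G}

/-- `s` is a CM point: the Mumford-Tate group is a torus (commutative, all elements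
diagonalisable). -/
def IsCM (V : Variation B N) (s : Pt n) : Prop :=
  ∀ i, s ∈ V.U i → (∀ A ∈ V.MT i s, ∀ A' ∈ V.MT i s, A * A' = A' * A) ∧
    ∀ A ∈ V.MT i s, ∃ Q : Matrix (Fin N) (Fin N) ℂ, IsUnit Q.det ∧ (Q⁻¹ * A * Q).IsDiag

end Variation

end MP_cb3775_ag
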