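import Pool.Agent.Lib.MP_cb3775_ag.F.ConstLoc
import Pool.Agent.Lib.MP_cb3775_ag.F.CMIff
import Pool.Agent.Lib.MP_cb3775_ag.F.Comm
import Pool.Agent.Lib.MP_cb3775_ag.D.Arc
import Pool.Agent.Lib.MP_cb3775_ag.F.Lat
import Pool.Agent.Lib.MP_cb3775_ag.F.Ind
import Pool.Agent.Lib.MP_cb3775_ag.E.Gen

/-!
# Hodge-Tate variations with a dense set of CM points

Assembly: the pairs `(a, b)` with `p a = p b - 1` are indexed by `Fin m`; `exists_units` for the `q a b` gives
`r, τ, π`; `y j = ∏ q ^ τ j`, `M j a b = π (a, b) j` (`0` if `p a ≠ p b - 1`). `torsion_of_cm`, `algIndep_of_torsion`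
(with `Z` the CM points), `commute_units`, `cm_iff`, `rational_const_local`, `Variation.F_eq`, `MT_eq` (the
hypothesis on `l` from the hypothesis on `y t`: clear denominators, `e_root_iff`). Linear independence of the `M j`: from
`∑ k, τ j k * π k j' = δ`.
-/

set_option autoImplicit false

namespace MP_cb3775_ag

open Filter Topology

private theorem main_act (N : ℕ) (p : Fin N → ℤ) (A : Matrix (Fin N) (Fin N) ℂ) (k : ℤ) :
    act A (Fge p k) = Submodule.span ℂ {v | ∃ a, k ≤ p a ∧ v = A.mulVec (Pi.single a 1)} := by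
  have h1 : Fge p k = Submodule.span ℂ {v | ∃ a, k ≤ p a ∧ v = Pi.single a 1} := by
    apply le_antisymm
    · intro v hv
      have h2 : v = ∑ a, v a • (Pi.single a (1 : ℂ) : Fin N → ℂ) := by
        ext b
        simp [Finset.sum_apply, Pi.single_apply]
      rw [h2]
      refine Submodule.sum_mem _ fun a _ => ?_
      by_cases ha : k ≤ p a
      · exact Submodule.smul_mem _ _ (Submodule.subset_span ⟨a, ha, rfl⟩)
      · have h3 : v a = 0 := hv a (not_le.1 ha)
        rw [h3, zero_smul]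
        exact Submodule.zero_mem _
    · rw [Submodule.span_le]
      rintro v ⟨a, ha, rfl⟩ b hb
      have hab : b ≠ a := by
        rintro rfl
        exact absurd ha (not_le.2 hb)
      simp [Pi.single_apply, hab]
  rw [h1, act, Submodule.map_span]
  congr 1
  ext v
  constructor
  · rintro ⟨w, ⟨a, ha, rfl⟩, rfl⟩
    exact ⟨a, ha, by simp [Matrix.toLin'_apply]⟩
  · rintro ⟨a, ha, rfl⟩
    exact ⟨Pi.single a 1, ⟨a, ha, rfl⟩, by simp [Matrix.toLin'_apply]⟩

private theorem main_e_sum {r : ℕ} (l : Fin r → ℂ) (v : Fin r → ℤ) :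
    e (∑ j, (v j : ℂ) * l j) = ∏ j, e (l j) ^ v j := by
  unfold e
  rw [Finset.mul_sum, Complex.exp_sum]
  refine Finset.prod_congr rfl fun j _ => ?_
  rw [← Complex.exp_int_mul]
  congr 1
  ring

private theorem main_nat_mul (z : ℂ) (k : ℕ) : e (k * z) = e z ^ k := by
  unfold e
  rw [← Complex.exp_nat_mul]
  congr 1
  ring

/-- no rational relation between the logarithms at a generic point. -/
private theorem main_generic {r : ℕ} (y l : Fin r → ℂ) (hl : ∀ j, e (l j) = y j)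
    (h : ∀ v : Fin r → ℤ, v ≠ 0 → ∀ m : ℕ, 0 < m → (∏ j, y j ^ v j) ^ m ≠ 1) :
    ∀ a : Fin r → ℚ, a ≠ 0 → ∀ b : ℚ, ∑ j, (a j : ℂ) * l j ≠ (b : ℂ) := by
  intro a ha b hb
  -- a common denominator
  let D : ℕ := ∏ j, (a j).den
  have hD : 0 < D := Finset.prod_pos fun j _ => (a j).den_pos
  have h1 : ∀ j, ∃ v : ℤ, (v : ℚ) = D * a j := by
    intro j
    obtain ⟨c, hc⟩ : (a j).den ∣ D := Finset.dvd_prod_of_mem _ (Finset.mem_univ j)
    refine ⟨c * (a j).num, ?_⟩
    push_cast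
    rw [hc]
    push_cast
    have h2 : ((a j).den : ℚ) * a j = (a j).num := by
      rw [mul_comm]
      exact Rat.mul_den_eq_num (a j)
    rw [← h2]
    ring
  choose v hv using h1
  have hv0 : v ≠ 0 := by
    intro h0
    apply ha
    ext j
    have h2 := hv j
    rw [h0] at h2
    simp only [Pi.zero_apply, Int.cast_zero] at h2
    have h3 : (D : ℚ) ≠ 0 := by exact_mod_cast hD.ne'
    rcases mul_eq_zero.1 h2.symm with h4 | h4
    · exact absurd h4 h3
    · exact h4
  have h2 : e (∑ j, (v j : ℂ) * l j) = ∏ j, y j ^ v j := by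
    rw [main_e_sum]
    exact Finset.prod_congr rfl fun j _ => by rw [hl]
  have h3 : ∑ j, (v j : ℂ) * l j = (((D : ℚ) * b : ℚ) : ℂ) := by
    have h4 : ∀ j, (v j : ℂ) = (D : ℂ) * (a j : ℂ) := by
      intro j
      have h5 := congrArg (fun q : ℚ => (q : ℂ)) (hv j)
      simpa using h5
    simp_rw [h4, mul_assoc]
    rw [← Finset.mul_sum, hb]
    push_cast
    ring
  obtain ⟨k, hk, hk1⟩ := (e_root_iff (∑ j, (v j : ℂ) * l j)).2 ⟨_, h3⟩
  rw [h2] at hk1
  exact h v hv0 k hk hk1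

theorem main {n N : ℕ} (B : Base n) (V : Variation B N) (hadm : V.Admissible)
    (hCM : B.ZDense {s | s ∈ B.pts ∧ V.IsCM s}) :
    ∃ (r : ℕ) (y : Fin r → Pt n → ℂ) (M : Fin r → Matrix (Fin N) (Fin N) ℤ),
      (∀ j, B.IsRational (y j) ∧ ∀ s ∈ B.pts, B.HolAt (y j) s ∧ y j s ≠ 0) ∧
      B.AlgIndep y ∧
      LinearIndependent ℤ M ∧ (∀ j a b, M j a b ≠ 0 → V.p a = V.p b - 1) ∧
      (∀ j k, M j * M k = M k * M j) ∧
      (∀ s ∈ B.pts, V.IsCM s ↔ ∀ j, ∃ k : ℕ, 0 < k ∧ y j s ^ k = 1) ∧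
      ∀ i, ∀ s ∈ V.U i ∩ B.pts, ∀ l : Fin r → Pt n → ℂ, (∀ j, B.HolAt (l j) s) →
        (∀ᶠ t in 𝓝[B.pts] s, ∀ j, e (l j t) = y j t) →
        ∃ C : Matrix (Fin N) (Fin N) ℚ, IsUnip V.p C ∧ ∀ᶠ t in 𝓝[B.pts] s,
          (∀ k, V.F i k t = Submodule.span ℂ {v | ∃ a, k ≤ V.p a ∧
            v = (qc C * NormedSpace.exp (lin M fun j => l j t)).mulVec (Pi.single a 1)}) ∧
          ((∀ v : Fin r → ℤ, v ≠ 0 → ∀ m : ℕ, 0 < m → (∏ j, y j t ^ v j) ^ m ≠ 1) →
            V.MT i t = {A | ∃ (c : Fin r → ℂ) (z : ℂ), z ≠ 0 ∧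
              A = qc C * (NormedSpace.exp (lin M c) *
                Matrix.diagonal fun a => z ^ (-V.p a)) * (qc C)⁻¹}) := by
  classical
  let κ : Type := {ab : Fin N × Fin N // V.p ab.1 = V.p ab.2 - 1}
  let en : κ ≃ Fin (Fintype.card κ) := Fintype.equivFin κ
  let q' : Fin (Fintype.card κ) → Pt n → ℂ := fun k => V.q (en.symm k).1.1 (en.symm k).1.2
  have hq'hol : ∀ k, ∀ s ∈ B.pts, B.HolAt (q' k) s := fun k => V.q_hol (en.symm k).2
  have hq'ne : ∀ k, ∀ s ∈ B.pts, q' k s ≠ 0 := fun k s _ => V.q_ne _ _ s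
  have hq'rat : ∀ k, B.IsRational (q' k) := fun k => V.q_rational hadm (en.symm k).2
  obtain ⟨r, τ, π, h1, h2, h3⟩ := exists_units q' hq'hol hq'ne
  let y : Fin r → Pt n → ℂ := fun j s => ∏ k', q' k' s ^ τ j k'
  let M : Fin r → Matrix (Fin N) (Fin N) ℤ := fun j a b =>
    if h : V.p a = V.p b - 1 then π (en ⟨(a, b), h⟩) j else 0
  have hMstep : ∀ j, IsStep V.p (M j) := by
    intro j a b hab
    by_contra h
    apply hab
    change (if h : V.p a = V.p b - 1 then π (en ⟨(a, b), h⟩) j else 0) = 0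
    rw [dif_neg h]
  have hyrat : ∀ j, B.IsRational (y j) := fun j => isRational_mono q' hq'rat hq'ne (τ j)
  have hyhol : ∀ j, ∀ s ∈ B.pts, B.HolAt (y j) s := fun j => holAt_mono q' hq'hol hq'ne (τ j)
  have hyne : ∀ j, ∀ s ∈ B.pts, y j s ≠ 0 := fun j => mono_ne q' hq'ne (τ j)
  have hV : HasUnits V y M := by
    refine ⟨hMstep, hyhol, hyne, ?_⟩
    intro a b hab
    obtain ⟨ζ, m', hm', hζ, hs⟩ := h1 (en ⟨(a, b), hab⟩)
    refine ⟨ζ, ?_, ?_⟩
    · rintro rfl
      rw [zero_pow hm'.ne'] at hζ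
      exact zero_ne_one hζ
    · intro s hs'
      have h4 := hs s hs'
      have h5 : q' (en ⟨(a, b), hab⟩) s = V.q a b s := by
        change V.q (en.symm (en ⟨(a, b), hab⟩)).1.1 (en.symm (en ⟨(a, b), hab⟩)).1.2 s = _
        rw [Equiv.symm_apply_apply]
      rw [← h5, h4]
      congr 1
      refine Finset.prod_congr rfl fun j _ => ?_
      change _ = y j s ^ (if h : V.p a = V.p b - 1 then π (en ⟨(a, b), h⟩) j else 0)
      rw [dif_pos hab]
  have hτ : ∀ j, ∃ v : Fin N → Fin N → ℤ, (∀ a b, v a b ≠ 0 → V.p a = V.p b - 1) ∧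
      ∀ s ∈ B.pts, y j s = ∏ a, ∏ b, V.q a b s ^ v a b := by
    intro j
    refine ⟨fun a b => if h : V.p a = V.p b - 1 then τ j (en ⟨(a, b), h⟩) else 0, ?_, ?_⟩
    · intro a b hab
      by_contra h
      apply hab
      simp only [dif_neg h]
    · intro s _
      have h4 : ∏ a, ∏ b, V.q a b s ^ (if h : V.p a = V.p b - 1 then τ j (en ⟨(a, b), h⟩) else 0) =
          ∏ ab : Fin N × Fin N, V.q ab.1 ab.2 s ^
            (if h : V.p ab.1 = V.p ab.2 - 1 then τ j (en ⟨(ab.1, ab.2), h⟩) else 0) := by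
        rw [Fintype.prod_prod_type]
      rw [h4]
      have h5 : ∏ ab : Fin N × Fin N, V.q ab.1 ab.2 s ^
            (if h : V.p ab.1 = V.p ab.2 - 1 then τ j (en ⟨(ab.1, ab.2), h⟩) else 0) =
          ∏ ab : κ, V.q ab.1.1 ab.1.2 s ^ τ j (en ab) := by
        symm
        refine Finset.prod_of_injOn (fun ab : κ => ab.1) (Subtype.val_injective.injOn) ?_ ?_ ?_
        · intro _ _
          exact Finset.mem_coe.2 (Finset.mem_univ _)
        · intro ab _ hab
          have h6 : ¬ V.p ab.1 = V.p ab.2 - 1 := by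
            intro h7
            exact hab ⟨⟨ab, h7⟩, Finset.mem_coe.2 (Finset.mem_univ _), rfl⟩
          rw [dif_neg h6, zpow_zero]
        · intro ab _
          rw [dif_pos ab.2]
      rw [h5]
      change ∏ k', q' k' s ^ τ j k' = _
      rw [← Equiv.prod_comp en]
      refine Finset.prod_congr rfl fun ab _ => ?_
      change V.q (en.symm (en ab)).1.1 (en.symm (en ab)).1.2 s ^ _ = _
      rw [Equiv.symm_apply_apply]
  have hind : B.AlgIndep y :=
    algIndep_of_torsion y hyrat hyhol hyne {s | s ∈ B.pts ∧ V.IsCM s} (fun s hs => hs.1) hCM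
      (fun s hs j => torsion_of_cm hτ hs.1 hs.2 j) h2
  have hcomm : ∀ j k, M j * M k = M k * M j := commute_units hV hyrat hind
  have hlin : LinearIndependent ℤ M := by
    rw [Fintype.linearIndependent_iff]
    intro c hc j'
    have h4 : ∀ k, ∑ j, c j * π k j = 0 := by
      intro k
      have h5 := congrFun (congrFun hc (en.symm k).1.1) (en.symm k).1.2
      rw [Matrix.sum_apply] at h5
      have h6 : ∀ j, (c j • M j) (en.symm k).1.1 (en.symm k).1.2 = c j * π k j := by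
        intro j
        rw [Matrix.smul_apply, smul_eq_mul]
        congr 1
        change (if h : V.p (en.symm k).1.1 = V.p (en.symm k).1.2 - 1 then
          π (en ⟨((en.symm k).1.1, (en.symm k).1.2), h⟩) j else 0) = _
        rw [dif_pos (en.symm k).2]
        have h7 : (⟨((en.symm k).1.1, (en.symm k).1.2), (en.symm k).2⟩ : κ) = en.symm k := rfl
        rw [h7, Equiv.apply_symm_apply]
      simp_rw [h6] at h5
      exact h5
    have h5 : c j' = ∑ k, τ j' k * ∑ j, c j * π k j := by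
      have h6 : ∀ k, τ j' k * ∑ j, c j * π k j = ∑ j, c j * (τ j' k * π k j) := by
        intro k
        rw [Finset.mul_sum]
        exact Finset.sum_congr rfl fun j _ => by ring
      simp_rw [h6]
      rw [Finset.sum_comm]
      simp_rw [← Finset.mul_sum, h3]
      simp
    rw [h5]
    exact Finset.sum_eq_zero fun k _ => by rw [h4 k, mul_zero]
  refine ⟨r, y, M, fun j => ⟨hyrat j, fun s hs => ⟨hyhol j s hs, hyne j s hs⟩⟩, hind, hlin,
    hMstep, hcomm, fun s hs => cm_iff hV hcomm hτ hCM hs, ?_⟩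
  intro i s hs l hlhol hl
  obtain ⟨C, hC, hu⟩ := rational_const_local hV hcomm hτ hCM hs l hlhol hl
  refine ⟨C, hC, ?_⟩
  filter_upwards [hu, hl, self_mem_nhdsWithin,
    mem_nhdsWithin_of_mem_nhds ((V.isOpen i).mem_nhds hs.1)] with t hut hlt htp htU
  refine ⟨?_, ?_⟩
  · intro k
    rw [V.F_eq ⟨htU, htp⟩, hut]
    exact main_act N V.p _ k
  · intro hgen
    rw [MT_eq V hMstep hcomm (fun j => l j t)
      (main_generic (fun j => y j t) (fun j => l j t) hlt hgen) C hC ⟨htU, htp⟩ hut]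
    ext A
    constructor
    · rintro ⟨A', ⟨c, z, hz, rfl⟩, rfl⟩
      exact ⟨c, z, hz, rfl⟩
    · rintro ⟨c, z, hz, rfl⟩
      exact ⟨_, ⟨c, z, hz, rfl⟩, rfl⟩

end MP_cb3775_ag
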